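import Pool.Agent.U7.HW.Lin

set_option autoImplicit false

open MeasureTheory Filter Topology Set
open scoped ENNReal NNReal Real

namespace Pool.Agent.U7.HW

open Pool.Dav Pool.Agent.U481.HW

theorem QQ_level_lam (f : ℝ → ℂ) (hf : Integrable f) (δ : ℝ) (hδ : 0 < δ) (lam : ℝ)
    (hlam : 0 < lam) :
    ENNReal.ofReal U0 * volume {x : ℝ | lam < ‖QQ f δ x‖} ≤ ENNReal.ofReal ((∫ x, ‖f x‖) / lam) := by
  set g : ℝ → ℂ := fun y => f y * (lam : ℂ)⁻¹ with hg
  have hgi : Integrable g := hf.mul_const _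
  have hQg : ∀ x, QQ g δ x = QQ f δ x * (lam : ℂ)⁻¹ := by
    intro x
    unfold QQ
    rw [← integral_mul_const]
    congr 1
    ext t
    simp only [hg]
    ring
  have hnormQ : ∀ x, ‖QQ g δ x‖ = ‖QQ f δ x‖ / lam := by
    intro x
    rw [hQg, norm_mul, norm_inv, Complex.norm_real, Real.norm_eq_abs, abs_of_pos hlam,
      div_eq_mul_inv]
  have hnormg : ∫ x, ‖g x‖ = (∫ x, ‖f x‖) / lam := by
    rw [div_eq_mul_inv, ← integral_mul_const]
    congr 1
    ext x
    simp only [hg]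
    rw [norm_mul, norm_inv, Complex.norm_real, Real.norm_eq_abs, abs_of_pos hlam]
  have h := QQ_level g hgi δ hδ
  rw [hnormg] at h
  refine le_trans (le_of_eq ?_) h
  congr 2
  ext x
  show lam < ‖QQ f δ x‖ ↔ 1 < ‖QQ g δ x‖
  rw [hnormQ, lt_div_iff₀ hlam, one_mul]

/-- The conjugate Poisson integrals tend to infinity only on a null set. -/
theorem blow_null (f : ℝ → ℂ) (hf : Integrable f) :
    ∀ᵐ x : ℝ, ¬ Tendsto (fun n : ℕ => ‖QQ f (1 / ((n : ℝ) + 1)) x‖) atTop atTop := by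
  rw [ae_iff]
  simp only [not_not]
  set Z : Set ℝ := {x | Tendsto (fun n : ℕ => ‖QQ f (1 / ((n : ℝ) + 1)) x‖) atTop atTop} with hZ
  have key : ∀ lam : ℝ, 0 < lam →
      ENNReal.ofReal U0 * volume Z ≤ ENNReal.ofReal ((∫ x, ‖f x‖) / lam) := by
    intro lam hlam
    set E : ℕ → Set ℝ := fun n => {x : ℝ | lam < ‖QQ f (1 / ((n : ℝ) + 1)) x‖} with hE
    have hEn : ∀ n, ENNReal.ofReal U0 * volume (E n) ≤ ENNReal.ofReal ((∫ x, ‖f x‖) / lam) :=
      fun n => QQ_level_lam f hf _ (by positivity) lam hlam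
    have hsub : Z ⊆ ⋃ n : ℕ, ⋂ m : ℕ, E (n + m) := by
      intro x hx
      have hx' : Tendsto (fun n : ℕ => ‖QQ f (1 / ((n : ℝ) + 1)) x‖) atTop atTop := hx
      obtain ⟨N, hN⟩ := eventually_atTop.1 (hx'.eventually_gt_atTop lam)
      exact mem_iUnion.2 ⟨N, mem_iInter.2 fun m => hN (N + m) (Nat.le_add_right N m)⟩
    have hdir : Directed (· ⊆ ·) (fun n : ℕ => ⋂ m : ℕ, E (n + m)) := by
      apply Monotone.directed_le
      intro a b hab x hxa
      obtain ⟨c, rfl⟩ := Nat.exists_eq_add_of_le hab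
      have hxa' := mem_iInter.1 hxa
      refine mem_iInter.2 fun m => ?_
      have := hxa' (c + m)
      rwa [← Nat.add_assoc] at this
    refine (mul_le_mul_right (measure_mono hsub) _).trans ?_
    rw [hdir.measure_iUnion, ENNReal.mul_iSup]
    refine iSup_le fun n => ?_
    refine le_trans ?_ (hEn n)
    gcongr
    refine (iInter_subset _ 0).trans ?_
    simp
  have hU : ENNReal.ofReal U0 ≠ 0 := (ENNReal.ofReal_pos.2 const_eq.1).ne'
  have h1 : Tendsto (fun lam : ℝ => ENNReal.ofReal ((∫ x, ‖f x‖) / lam)) atTop (𝓝 0) := by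
    have h2 : Tendsto (fun lam : ℝ => (∫ x, ‖f x‖) / lam) atTop (𝓝 0) :=
      tendsto_const_nhds.div_atTop tendsto_id
    have h3 := ENNReal.tendsto_ofReal h2
    rwa [ENNReal.ofReal_zero] at h3
  have h2 : ENNReal.ofReal U0 * volume Z ≤ 0 := by
    refine ge_of_tendsto h1 ?_
    filter_upwards [eventually_gt_atTop (0 : ℝ)] with lam hlam
    exact key lam hlam
  have h3 := nonpos_iff_eq_zero.1 h2
  rcases mul_eq_zero.1 h3 with h | h
  · exact absurd h hU
  · exact h

theorem exists_nonneg (f : ℝ → ℝ) (hf : Integrable f) (h0 : ∀ t, 0 ≤ f t) :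
    ∀ᵐ x : ℝ, ∃ v, HasHilbert (fun t => ((f t : ℝ) : ℂ)) x v := by
  have hfC : Integrable (fun t => ((f t : ℝ) : ℂ)) := hf.ofReal
  filter_upwards [GG_lim f hf h0, PP_tendsto _ hfC, trunc_ae _ hfC,
    blow_null _ hfC] with x hw hP hT hZ
  obtain ⟨w, hw⟩ := hw
  set k : ℝ → ℂ := fun δ => GG f (x + δ * Complex.I) * (x + δ * Complex.I + Complex.I) ^ 2 with hk
  have hkl : Tendsto k (𝓝[>] (0 : ℝ)) (𝓝 (w * (x + Complex.I) ^ 2)) := by
    refine hw.mul ?_
    have h1 : Tendsto (fun δ : ℝ => ((x : ℂ) + δ * Complex.I + Complex.I) ^ 2) (𝓝 (0 : ℝ))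
        (𝓝 (((x : ℂ) + (0 : ℝ) * Complex.I + Complex.I) ^ 2)) := by
      apply Continuous.tendsto
      fun_prop
    simp only [Complex.ofReal_zero, zero_mul, add_zero] at h1
    exact h1.mono_left nhdsWithin_le_nhds
  have hkF : ∀ δ : ℝ, 0 < δ → k δ = (1 + cau f (x + δ * Complex.I))⁻¹ := by
    intro δ hδ
    have hz : 0 < ((x : ℂ) + δ * Complex.I).im := by simpa using hδ
    have h2 := one_le_norm f hf h0 _ hz
    have h3 := norm_I _ hz
    have h4 : 1 + cau f (x + δ * Complex.I) ≠ 0 := by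
      intro h
      rw [h, norm_zero] at h2
      linarith
    have h5 : ((x : ℂ) + δ * Complex.I + Complex.I) ^ 2 ≠ 0 := by
      intro h
      rw [h, norm_zero] at h3
      have : 0 < 1 + ‖(x : ℂ) + δ * Complex.I‖ ^ 2 := by positivity
      linarith
    simp only [hk]
    unfold GG
    rw [one_div, mul_inv, mul_assoc, inv_mul_cancel₀ h5, mul_one]
  have hxI : ((x : ℂ) + Complex.I) ^ 2 ≠ 0 := by
    apply pow_ne_zero
    intro h
    have := congrArg Complex.im h
    simp at this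
  have hQF : ∀ δ : ℝ, 0 < δ → QQ (fun t => ((f t : ℝ) : ℂ)) δ x =
      (((cau f (x + δ * Complex.I)).im : ℝ) : ℂ) := fun δ hδ => (cau_eq f hf δ x hδ).2
  have hPF : ∀ δ : ℝ, 0 < δ → PP (fun t => ((f t : ℝ) : ℂ)) δ x =
      (((cau f (x + δ * Complex.I)).re : ℝ) : ℂ) := fun δ hδ => (cau_eq f hf δ x hδ).1
  have hne : w ≠ 0 := by
    intro hw0
    apply hZ
    rw [hw0, zero_mul] at hkl
    have h1 : Tendsto (fun δ => ‖k δ‖) (𝓝[>] (0 : ℝ)) (𝓝[>] 0) := by
      refine tendsto_nhdsWithin_iff.2 ⟨?_, ?_⟩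
      · have := hkl.norm
        rwa [norm_zero] at this
      · filter_upwards [self_mem_nhdsWithin] with δ hδ
        show 0 < ‖k δ‖
        rw [hkF δ hδ, norm_inv]
        have hz : 0 < ((x : ℂ) + δ * Complex.I).im := by simpa using hδ
        have h2 := one_le_norm f hf h0 _ hz
        positivity
    have h2 := h1.inv_tendsto_nhdsGT_zero
    have h3 : Tendsto (fun δ => (‖k δ‖)⁻¹ + -(1 + ‖PP (fun t => ((f t : ℝ) : ℂ)) δ x‖))
        (𝓝[>] (0 : ℝ)) atTop :=
      h2.atTop_add ((hP.norm.const_add 1).neg)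
    have h4 : Tendsto (fun δ => ‖QQ (fun t => ((f t : ℝ) : ℂ)) δ x‖) (𝓝[>] (0 : ℝ)) atTop := by
      refine tendsto_atTop_mono' _ ?_ h3
      filter_upwards [self_mem_nhdsWithin] with δ hδ
      rw [hkF δ hδ, norm_inv, inv_inv, hQF δ hδ, hPF δ hδ]
      have h5 : ‖1 + cau f (x + δ * Complex.I)‖ ≤ 1 + ‖cau f (x + δ * Complex.I)‖ := by
        refine (norm_add_le _ _).trans ?_
        rw [norm_one]
      have h6 := Complex.norm_le_abs_re_add_abs_im (cau f (x + δ * Complex.I))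
      rw [Complex.norm_real, Complex.norm_real, Real.norm_eq_abs, Real.norm_eq_abs]
      linarith
    have hd : Tendsto (fun n : ℕ => (1 : ℝ) / ((n : ℝ) + 1)) atTop (𝓝[>] (0 : ℝ)) := by
      refine tendsto_nhdsWithin_iff.2 ⟨tendsto_one_div_add_atTop_nhds_zero_nat, ?_⟩
      exact Eventually.of_forall (fun n => by
        show (0 : ℝ) < 1 / ((n : ℝ) + 1)
        positivity)
    exact h4.comp hd
  have hκ : w * (x + Complex.I) ^ 2 ≠ 0 := mul_ne_zero hne hxI
  have h1 : Tendsto (fun δ => (k δ)⁻¹ - 1) (𝓝[>] (0 : ℝ)) (𝓝 ((w * (x + Complex.I) ^ 2)⁻¹ - 1)) :=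
    (hkl.inv₀ hκ).sub_const 1
  have h2 : Tendsto (fun δ : ℝ => cau f (x + δ * Complex.I)) (𝓝[>] (0 : ℝ))
      (𝓝 ((w * (x + Complex.I) ^ 2)⁻¹ - 1)) := by
    refine h1.congr' ?_
    filter_upwards [self_mem_nhdsWithin] with δ hδ
    rw [hkF δ hδ, inv_inv]
    ring
  have h3 : Tendsto (fun δ : ℝ => QQ (fun t => ((f t : ℝ) : ℂ)) δ x) (𝓝[>] (0 : ℝ))
      (𝓝 (((((w * (x + Complex.I) ^ 2)⁻¹ - 1).im : ℝ)) : ℂ)) := by
    have h4 : Tendsto (fun δ : ℝ => (((cau f (x + δ * Complex.I)).im : ℝ) : ℂ)) (𝓝[>] (0 : ℝ))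
        (𝓝 (((((w * (x + Complex.I) ^ 2)⁻¹ - 1).im : ℝ)) : ℂ)) :=
      ((Complex.continuous_ofReal.comp Complex.continuous_im).tendsto _).comp h2
    refine h4.congr' ?_
    filter_upwards [self_mem_nhdsWithin] with δ hδ
    exact (hQF δ hδ).symm
  have h := h3.sub hT
  simp only [sub_sub_cancel, sub_zero] at h
  exact ⟨_, h⟩

lemma truncH_add (f g : ℝ → ℂ) (hf : Integrable f) (hg : Integrable g) (ε x : ℝ) (hε : 0 < ε) :
    truncH (fun y => f y + g y) ε x = truncH f ε x + truncH g ε x := by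
  have hI : ∀ h : ℝ → ℂ, Integrable h →
      IntegrableOn (fun y => h y / ((x : ℂ) - (y : ℂ))) {y : ℝ | ε < |x - y|} := by
    intro h hh
    have hm : MeasurableSet {y : ℝ | ε < |x - y|} := measurableSet_lt measurable_const (by fun_prop)
    refine Integrable.mono' (hh.norm.const_mul ε⁻¹).integrableOn ?_ ?_
    · have h1 : Measurable fun y : ℝ => ((x : ℂ) - (y : ℂ))⁻¹ := by fun_prop
      simp only [div_eq_mul_inv]
      exact (hh.aestronglyMeasurable.mul h1.aestronglyMeasurable).restrict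
    · rw [ae_restrict_iff' hm]
      refine Eventually.of_forall fun y hy => ?_
      have hy' : ε < |x - y| := hy
      rw [norm_div, ← Complex.ofReal_sub, Complex.norm_real, Real.norm_eq_abs, div_eq_inv_mul]
      gcongr
  unfold truncH
  rw [← mul_add, ← integral_add (hI f hf) (hI g hg)]
  congr 2
  funext y
  ring

lemma hasHilbert_add {f g : ℝ → ℂ} (hf : Integrable f) (hg : Integrable g) {x : ℝ} {v w : ℂ}
    (h1 : HasHilbert f x v) (h2 : HasHilbert g x w) : HasHilbert (fun y => f y + g y) x (v + w) := by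
  unfold HasHilbert at *
  refine (h1.add h2).congr' ?_
  filter_upwards [self_mem_nhdsWithin] with ε hε
  exact (truncH_add f g hf hg ε x hε).symm

lemma hasHilbert_smul {f : ℝ → ℂ} {x : ℝ} {v : ℂ} (c : ℂ)
    (h1 : HasHilbert f x v) : HasHilbert (fun y => c * f y) x (c * v) := by
  unfold HasHilbert at *
  refine (h1.const_mul c).congr fun ε => ?_
  unfold truncH
  rw [mul_left_comm, ← integral_const_mul]
  congr 2
  funext y
  ring

lemma exists_real (f : ℝ → ℝ) (hf : Integrable f) :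
    ∀ᵐ x : ℝ, ∃ v, HasHilbert (fun t => ((f t : ℝ) : ℂ)) x v := by
  have hp : Integrable (fun t => max (f t) 0) := hf.pos_part
  have hn : Integrable (fun t => max (-f t) 0) := hf.neg_part
  filter_upwards [exists_nonneg _ hp (fun t => le_max_right _ _),
    exists_nonneg _ hn (fun t => le_max_right _ _)] with x h1 h2
  obtain ⟨v, hv⟩ := h1
  obtain ⟨w, hw⟩ := h2
  refine ⟨v + (-1) * w, ?_⟩
  have hpC : Integrable (fun t => ((max (f t) 0 : ℝ) : ℂ)) := hp.ofReal
  have hnC : Integrable (fun t => ((max (-f t) 0 : ℝ) : ℂ)) := hn.ofReal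
  have h3 := hasHilbert_add hpC (hnC.const_mul (-1)) hv (hasHilbert_smul (-1) hw)
  convert h3 using 1
  funext t
  have : f t = max (f t) 0 + (-1) * max (-f t) 0 := by
    rcases le_total 0 (f t) with h | h
    · rw [max_eq_left h, max_eq_right (by linarith)]
      ring
    · rw [max_eq_right h, max_eq_left (by linarith)]
      ring
  calc ((f t : ℝ) : ℂ) = ((max (f t) 0 + (-1) * max (-f t) 0 : ℝ) : ℂ) := by rw [← this]
    _ = _ := by push_cast; ring

/-- The principal value exists almost everywhere, for every integrable function. -/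
theorem exists_ae (f : ℝ → ℂ) (hf : Integrable f) : ∀ᵐ x : ℝ, ∃ v, HasHilbert f x v := by
  filter_upwards [exists_real _ hf.re, exists_real _ hf.im] with x h1 h2
  obtain ⟨v, hv⟩ := h1
  obtain ⟨w, hw⟩ := h2
  refine ⟨v + Complex.I * w, ?_⟩
  have hpC : Integrable (fun t => (((f t).re : ℝ) : ℂ)) := hf.re.ofReal
  have hnC : Integrable (fun t => (((f t).im : ℝ) : ℂ)) := hf.im.ofReal
  have h3 := hasHilbert_add hpC (hnC.const_mul Complex.I) hv
    (hasHilbert_smul Complex.I hw)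
  convert h3 using 1
  funext t
  have := Complex.re_add_im (f t)
  rw [mul_comm Complex.I]
  exact this.symm

lemma hilbert_eq {f : ℝ → ℂ} {x : ℝ} {v : ℂ} (h : HasHilbert f x v) : hilbert f x = v := by
  have hex : ∃ v, HasHilbert f x v := ⟨v, h⟩
  have h1 : hilbert f x = hex.choose := by
    unfold hilbert
    rw [dif_pos hex]
  rw [h1]
  exact tendsto_nhds_unique hex.choose_spec h

theorem lin : S_lin := by
  intro f g hf hg
  filter_upwards [exists_ae f hf, exists_ae g hg] with x h1 h2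
  obtain ⟨v, hv⟩ := h1
  obtain ⟨w, hw⟩ := h2
  rw [hilbert_eq hv, hilbert_eq hw, hilbert_eq (hasHilbert_add hf hg hv hw)]

end Pool.Agent.U7.HW
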