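import Pool.Agent.U481.HW.Stm
import Pool.Agent.Helper458.Dav.P_upper
import Pool.Agent.Helper458.Dav.P_const_eq

set_option autoImplicit false

open MeasureTheory Filter Topology Set
open scoped ENNReal NNReal

namespace Pool.Agent.U7.HW

open Pool.Dav Pool.Agent.U481.HW

theorem whil : S_whil := by
  have hU := const_eq.1
  have hU' : ENNReal.ofReal U0 ≠ 0 := (ENNReal.ofReal_pos.2 hU).ne'
  refine ⟨(ENNReal.ofReal U0)⁻¹, ENNReal.inv_lt_top.2 (ENNReal.ofReal_pos.2 hU), fun f hf t => ?_⟩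
  rcases eq_or_ne t 0 with rfl | ht0
  · simp
  rcases eq_or_ne t ⊤ with rfl | htt
  · simp
  obtain ⟨lam, rfl, hlam⟩ : ∃ lam : ℝ, t = ENNReal.ofReal lam ∧ 0 < lam :=
    ⟨t.toReal, (ENNReal.ofReal_toReal htt).symm, ENNReal.toReal_pos ht0 htt⟩
  have h := upper f hf lam hlam
  have hset : {x | ENNReal.ofReal lam < ‖hilbert f x‖ₑ} = {x | lam < ‖hilbert f x‖} := by
    ext x
    simp only [mem_setOf_eq, ← ofReal_norm]
    rw [ENNReal.ofReal_lt_ofReal_iff_of_nonneg hlam.le]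
  rw [hset]
  have h2 : ENNReal.ofReal (∫ x, ‖f x‖) = ∫⁻ y, ‖f y‖ₑ :=
    ofReal_integral_norm_eq_lintegral_enorm hf
  rw [h2] at h
  calc ENNReal.ofReal lam * volume {x | lam < ‖hilbert f x‖}
      = (ENNReal.ofReal U0)⁻¹ *
          (ENNReal.ofReal U0 * (ENNReal.ofReal lam * volume {x | lam < ‖hilbert f x‖})) := by
        rw [← mul_assoc, ENNReal.inv_mul_cancel hU' ENNReal.ofReal_ne_top, one_mul]
    _ ≤ _ := by gcongr

end Pool.Agent.U7.HW
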