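import Pool.Agent.U481.HW.Stm
import Pool.Agent.Helper458.Dav.P_cauchy_rep
import Pool.Agent.Helper458.Dav.P_cau_eq
import Pool.Agent.Helper458.Dav.P_PP_L1

set_option autoImplicit false

open MeasureTheory Filter Topology Set
open scoped ENNReal NNReal Real

namespace Pool.Agent.U7.HW

open Pool.Dav

/-- Density `1/(1+x²)`. -/
noncomputable def rho (x : ℝ) : ℝ≥0 := Real.toNNReal ((1 + x ^ 2)⁻¹)

noncomputable def mu : Measure ℝ := volume.withDensity fun x => (rho x : ℝ≥0∞)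

lemma rho_meas : Measurable rho := by
  unfold rho
  fun_prop

lemma rho_coe (x : ℝ) : (rho x : ℝ) = (1 + x ^ 2)⁻¹ :=
  Real.coe_toNNReal _ (by positivity)

instance : IsFiniteMeasure mu := by
  refine ⟨?_⟩
  unfold mu
  rw [withDensity_apply _ MeasurableSet.univ, Measure.restrict_univ]
  have h := (integrable_inv_one_add_sq).lintegral_lt_top
  exact h

/-- the shifted function on the line, multiplied by `1+x²` -/
noncomputable def Vf (g : ℂ → ℂ) (n : ℕ) (x : ℝ) : ℝ :=
  (1 + x ^ 2) * (g (x + (1 / ((n : ℝ) + 1) : ℝ) * Complex.I)).re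

lemma line_cont (g : ℂ → ℂ) (hd : DifferentiableOn ℂ g {z : ℂ | 0 < z.im}) (s : ℝ) (hs : 0 < s) :
    Continuous (fun x : ℝ => g (x + s * Complex.I)) := by
  have h1 : ContinuousOn g {z : ℂ | 0 < z.im} := hd.continuousOn
  exact h1.comp_continuous (by fun_prop) (fun x => by simpa using hs)

lemma Vf_cont (g : ℂ → ℂ) (hd : DifferentiableOn ℂ g {z : ℂ | 0 < z.im}) (n : ℕ) :
    Continuous (Vf g n) := by
  have h := line_cont g hd (1 / ((n : ℝ) + 1)) (by positivity)
  unfold Vf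
  exact (by fun_prop : Continuous fun x : ℝ => 1 + x ^ 2).mul (Complex.continuous_re.comp h)

lemma norm_line (x s : ℝ) : x ^ 2 ≤ ‖(x : ℂ) + s * Complex.I‖ ^ 2 := by
  rw [← Complex.normSq_eq_norm_sq, Complex.normSq_apply]
  simp
  nlinarith [sq_nonneg s]

lemma Vf_bd (g : ℂ → ℂ) (hb : ∀ z : ℂ, 0 < z.im → ‖g z‖ ≤ 1 / (1 + ‖z‖ ^ 2)) (n : ℕ) (x : ℝ) :
    ‖Vf g n x‖ ≤ 1 := by
  have hs : (0 : ℝ) < 1 / ((n : ℝ) + 1) := by positivity
  have h1 := hb (x + (1 / ((n : ℝ) + 1) : ℝ) * Complex.I) (by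
    rw [Complex.add_im, Complex.ofReal_im, Complex.im_ofReal_mul, Complex.I_im, mul_one, zero_add]
    exact hs)
  have h2 := norm_line x (1 / ((n : ℝ) + 1))
  have h3 : (0 : ℝ) < 1 + x ^ 2 := by positivity
  unfold Vf
  rw [norm_mul, Real.norm_of_nonneg h3.le, Real.norm_eq_abs]
  have h4 : |(g (x + (1 / ((n : ℝ) + 1) : ℝ) * Complex.I)).re| ≤ 1 / (1 + x ^ 2) :=
    (Complex.abs_re_le_norm _).trans (h1.trans (by gcongr))
  calc (1 + x ^ 2) * |(g (x + (1 / ((n : ℝ) + 1) : ℝ) * Complex.I)).re|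
      ≤ (1 + x ^ 2) * (1 / (1 + x ^ 2)) := by gcongr
    _ = 1 := by field_simp

/-- Poisson representation of the shifted function -/
lemma rep_shift (g : ℂ → ℂ) (hd : DifferentiableOn ℂ g {z : ℂ | 0 < z.im})
    (hb : ∀ z : ℂ, 0 < z.im → ‖g z‖ ≤ 1 / (1 + ‖z‖ ^ 2)) (s : ℝ) (hs : 0 < s) (x δ : ℝ)
    (hδ : 0 < δ) :
    ∫ t : ℝ, (π⁻¹ * (δ / ((x - t) ^ 2 + δ ^ 2))) * (g (t + s * Complex.I)).re
      = (g (x + (δ + s : ℝ) * Complex.I)).re := by
  set G : ℂ → ℂ := fun z => g (z + s * Complex.I) with hG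
  have hmaps : MapsTo (fun z : ℂ => z + s * Complex.I) {z : ℂ | 0 ≤ z.im} {z : ℂ | 0 < z.im} := by
    intro z hz
    have hz' : 0 ≤ z.im := hz
    show 0 < (z + s * Complex.I).im
    simp
    linarith
  have hGd : DifferentiableOn ℂ G {z : ℂ | 0 < z.im} := by
    refine hd.comp (by fun_prop) ?_
    intro z hz
    exact hmaps (show 0 ≤ z.im from le_of_lt hz)
  have hGc : ContinuousOn G {z : ℂ | 0 ≤ z.im} :=
    hd.continuousOn.comp (by fun_prop) hmaps
  have hGb : ∀ z : ℂ, 0 ≤ z.im → ‖G z‖ ≤ 1 / (1 + ‖z‖ ^ 2) := by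
    intro z hz
    refine (hb _ (hmaps hz)).trans ?_
    have h1 : ‖z‖ ^ 2 ≤ ‖z + s * Complex.I‖ ^ 2 := by
      rw [← Complex.normSq_eq_norm_sq, ← Complex.normSq_eq_norm_sq, Complex.normSq_apply,
        Complex.normSq_apply]
      simp
      nlinarith [mul_nonneg hz hs.le]
    gcongr
  have hGi : Integrable (fun t : ℝ => (G t).re) := by
    have hcont : Continuous (fun t : ℝ => G t) :=
      hGc.comp_continuous Complex.continuous_ofReal (fun t => by simp)
    have hcont2 : Continuous (fun t : ℝ => (G t).re) := Complex.continuous_re.comp hcont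
    refine (integrable_inv_one_add_sq.const_mul 1).mono' hcont2.aestronglyMeasurable
      (Eventually.of_forall fun t => ?_)
    have h1 := hGb t (by simp)
    rw [Complex.norm_real, Real.norm_eq_abs, sq_abs] at h1
    rw [Real.norm_eq_abs, ← div_eq_mul_inv]
    exact (Complex.abs_re_le_norm _).trans h1
  have h1 := (cau_eq (fun t : ℝ => (G t).re) hGi δ x hδ).1
  rw [cauchy_rep G 1 hGd hGc hGb _ (by simpa using hδ)] at h1
  unfold PP at h1
  have h2 : (fun t : ℝ => ((π⁻¹ * (δ / ((x - t) ^ 2 + δ ^ 2)) : ℝ) : ℂ) * (((G t).re : ℝ) : ℂ)) =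
      fun t : ℝ => (((π⁻¹ * (δ / ((x - t) ^ 2 + δ ^ 2))) * (G t).re : ℝ) : ℂ) := by
    funext t
    push_cast
    ring
  rw [h2, integral_complex_ofReal] at h1
  have h3 := Complex.ofReal_injective h1
  rw [h3, hG]
  simp only
  congr 2
  push_cast
  ring

/-- the kernel as an element of `L²(μ)` -/
lemma ker_memLp (x δ : ℝ) (hδ : 0 < δ) :
    MemLp (fun t : ℝ => π⁻¹ * (δ / ((x - t) ^ 2 + δ ^ 2))) 2 mu := by
  refine MemLp.of_bound (C := π⁻¹ * δ⁻¹) ?_ ?_
  · have : Measurable (fun t : ℝ => π⁻¹ * (δ / ((x - t) ^ 2 + δ ^ 2))) := by fun_prop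
    exact this.aestronglyMeasurable
  · refine Eventually.of_forall fun t => ?_
    have h1 : 0 < (x - t) ^ 2 + δ ^ 2 := by positivity
    rw [Real.norm_of_nonneg (by positivity)]
    have h2 : δ / ((x - t) ^ 2 + δ ^ 2) ≤ δ⁻¹ := by
      rw [div_le_iff₀ h1, inv_mul_eq_div, le_div_iff₀ hδ]
      nlinarith [sq_nonneg (x - t)]
    gcongr

lemma Vf_memLp (g : ℂ → ℂ) (hd : DifferentiableOn ℂ g {z : ℂ | 0 < z.im})
    (hb : ∀ z : ℂ, 0 < z.im → ‖g z‖ ≤ 1 / (1 + ‖z‖ ^ 2)) (n : ℕ) : MemLp (Vf g n) 2 mu :=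
  MemLp.of_bound (C := 1) (Vf_cont g hd n).aestronglyMeasurable
    (Eventually.of_forall fun x => Vf_bd g hb n x)

/-- Fatou: a holomorphic function on the upper half plane bounded by `1/(1+|z|²)` has real part the
Poisson integral of an integrable function. -/
theorem fatou_re (g : ℂ → ℂ) (hd : DifferentiableOn ℂ g {z : ℂ | 0 < z.im})
    (hb : ∀ z : ℂ, 0 < z.im → ‖g z‖ ≤ 1 / (1 + ‖z‖ ^ 2)) :
    ∃ φ : ℝ → ℝ, Integrable φ ∧ ∀ x δ : ℝ, 0 < δ →
      PP (fun t => ((φ t : ℝ) : ℂ)) δ x = (((g (x + δ * Complex.I)).re : ℝ) : ℂ) := by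
  classical
  set E := Lp ℝ 2 mu with hE
  set V : ℕ → E := fun n => (Vf_memLp g hd hb n).toLp _ with hV
  -- bound of the norms
  obtain ⟨M, hM⟩ : ∃ M : ℝ, ∀ n, ‖V n‖ ≤ M := by
    refine ⟨_, fun n => Lp.norm_le_of_ae_bound zero_le_one ?_⟩
    filter_upwards [(Vf_memLp g hd hb n).coeFn_toLp] with x hx
    rw [hx]
    exact Vf_bd g hb n x
  let 𝓤 : Ultrafilter ℕ := Ultrafilter.of atTop
  have h𝓤 : (𝓤 : Filter ℕ) ≤ atTop := Ultrafilter.of_le atTop
  let a : ℕ → WeakDual ℝ E := fun n => StrongDual.toWeakDual (InnerProductSpace.toDual ℝ E (V n))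
  have hK := WeakDual.isCompact_closedBall (0 : StrongDual ℝ E) M
  have ha : ∀ n, a n ∈ WeakDual.toStrongDual ⁻¹' Metric.closedBall (0 : StrongDual ℝ E) M := by
    intro n
    show WeakDual.toStrongDual (a n) ∈ Metric.closedBall (0 : StrongDual ℝ E) M
    rw [mem_closedBall_zero_iff]
    show ‖InnerProductSpace.toDual ℝ E (V n)‖ ≤ M
    rw [LinearIsometryEquiv.norm_map]
    exact hM n
  obtain ⟨ℓ, -, hℓ⟩ := hK.ultrafilter_le_nhds (𝓤.map a) (by
    rw [Ultrafilter.coe_map]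
    exact le_principal_iff.2 (Filter.mem_map.2 (Filter.univ_mem' ha)))
  have hlim : ∀ u : E, Tendsto (fun n => inner ℝ (V n) u) 𝓤 (𝓝 (ℓ u)) := by
    intro u
    have h1 : Tendsto a 𝓤 (𝓝 ℓ) := hℓ
    have h2 := ((WeakDual.eval_continuous u).tendsto ℓ).comp h1
    exact h2
  set φ' : E := (InnerProductSpace.toDual ℝ E).symm (WeakDual.toStrongDual ℓ) with hφ'
  have hφ'i : ∀ u : E, inner ℝ φ' u = ℓ u := by
    intro u
    rw [hφ', InnerProductSpace.toDual_symm_apply]
    rfl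
  refine ⟨fun x => rho x • φ' x, ?_, ?_⟩
  · have h1 : Integrable (φ' : ℝ → ℝ) mu := (Lp.memLp φ').integrable one_le_two
    exact (integrable_withDensity_iff_integrable_smul rho_meas).1 h1
  · intro x δ hδ
    set P : ℝ → ℝ := fun t => π⁻¹ * (δ / ((x - t) ^ 2 + δ ^ 2)) with hP
    set u : E := (ker_memLp x δ hδ).toLp _ with hu
    have hin : ∀ v : E, inner ℝ v u = ∫ t, P t * (rho t • v t) := by
      intro v
      rw [L2.inner_def]
      have h1 : (fun t => inner ℝ (v t) (u t)) =ᵐ[mu] fun t => P t * v t := by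
        filter_upwards [(ker_memLp x δ hδ).coeFn_toLp] with t ht
        rw [hu, ht]
        simp [hP]
      rw [integral_congr_ae h1]
      unfold mu
      rw [integral_withDensity_eq_integral_smul rho_meas]
      congr 1
      funext t
      simp only [NNReal.smul_def, smul_eq_mul]
      ring
    have hVn : ∀ n : ℕ, inner ℝ (V n) u = (g (x + (δ + 1 / ((n : ℝ) + 1) : ℝ) * Complex.I)).re := by
      intro n
      rw [hin, ← rep_shift g hd hb (1 / ((n : ℝ) + 1)) (by positivity) x δ hδ]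
      apply integral_congr_ae
      have h2 : ∀ᵐ t ∂mu, V n t = Vf g n t := (Vf_memLp g hd hb n).coeFn_toLp
      have h3 : ∀ᵐ t ∂(volume : Measure ℝ), V n t = Vf g n t := by
        have h4 := (ae_withDensity_iff (rho_meas.coe_nnreal_ennreal)).1 h2
        filter_upwards [h4] with t ht
        apply ht
        rw [Ne, ENNReal.coe_eq_zero]
        intro h0
        have h5 := rho_coe t
        rw [h0] at h5
        have h6 : (0 : ℝ) < (1 + t ^ 2)⁻¹ := by positivity
        rw [← h5] at h6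
        exact lt_irrefl _ h6
      filter_upwards [h3] with t ht
      rw [ht, NNReal.smul_def, rho_coe, smul_eq_mul]
      unfold Vf
      have h7 : (1 + t ^ 2 : ℝ) ≠ 0 := by positivity
      rw [← mul_assoc (1 + t ^ 2)⁻¹, inv_mul_cancel₀ h7, one_mul]
    have hl1 := hlim u
    have hl2 : Tendsto (fun n => inner ℝ (V n) u) 𝓤 (𝓝 (g (x + δ * Complex.I)).re) := by
      have h1 : Tendsto (fun n : ℕ => (g (x + (δ + 1 / ((n : ℝ) + 1) : ℝ) * Complex.I)).re) atTop
          (𝓝 (g (x + δ * Complex.I)).re) := by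
        have h2 : ContinuousAt g (x + δ * Complex.I) := by
          refine (hd.continuousOn).continuousAt ?_
          exact (isOpen_lt continuous_const Complex.continuous_im).mem_nhds (by simpa using hδ)
        have h3 : Tendsto (fun n : ℕ => ((x : ℂ) + (δ + 1 / ((n : ℝ) + 1) : ℝ) * Complex.I)) atTop
            (𝓝 (x + δ * Complex.I)) := by
          have h4 : Tendsto (fun s : ℝ => ((x : ℂ) + (δ + s : ℝ) * Complex.I)) (𝓝 0)
              (𝓝 (x + (δ + 0 : ℝ) * Complex.I)) := by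
            apply Continuous.tendsto
            fun_prop
          rw [add_zero] at h4
          exact h4.comp tendsto_one_div_add_atTop_nhds_zero_nat
        exact (Complex.continuous_re.tendsto _).comp (h2.tendsto.comp h3)
      refine (h1.mono_left h𝓤).congr fun n => (hVn n).symm
    have heq := tendsto_nhds_unique hl1 hl2
    rw [← hφ'i, hin] at heq
    unfold PP
    rw [← heq, ← integral_complex_ofReal]
    congr 1
    funext t
    simp only [hP]
    push_cast
    ring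

end Pool.Agent.U7.HW
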