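import Pool.Agent.U7.HW.Fat
import Pool.Agent.Helper458.Dav.P_upper
import Pool.Agent.Helper458.Dav.P_const_eq
import Pool.Agent.Helper458.Dav.P_cau_diff

set_option autoImplicit false

open MeasureTheory Filter Topology Set
open scoped ENNReal NNReal Real

namespace Pool.Agent.U7.HW

open Pool.Dav Pool.Agent.U481.HW

/-- Poisson integrals converge almost everywhere. -/
theorem PP_tendsto (f : ℝ → ℂ) (hf : Integrable f) :
    ∀ᵐ x : ℝ, Tendsto (fun δ : ℝ => PP f δ x) (𝓝[>] (0 : ℝ)) (𝓝 (f x)) := by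
  filter_upwards [approx_id f hf] with x hx
  rw [tendsto_iff_norm_sub_tendsto_zero]
  have h1 : Tendsto (fun δ : ℝ => π⁻¹ * ∫ t : ℝ, (δ / ((x - t) ^ 2 + δ ^ 2)) * ‖f t - f x‖)
      (𝓝[>] (0 : ℝ)) (𝓝 0) := by
    have := hx.const_mul (π⁻¹)
    rwa [mul_zero] at this
  refine squeeze_zero' (Eventually.of_forall fun _ => norm_nonneg _) ?_ h1
  filter_upwards [self_mem_nhdsWithin] with δ hδ'
  have hδ : 0 < δ := hδ'
  have hk0 : Integrable (fun t : ℝ => π⁻¹ * (δ / ((x - t) ^ 2 + δ ^ 2))) :=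
    (PPk_int δ hδ).comp_sub_left x
  have hk1 : ∫ t : ℝ, π⁻¹ * (δ / ((x - t) ^ 2 + δ ^ 2)) = 1 := by
    have := integral_sub_left_eq_self (fun u : ℝ => π⁻¹ * (δ / (u ^ 2 + δ ^ 2))) volume x
    rw [this, PPk_one δ hδ]
  have hkC : Integrable (fun t : ℝ => ((π⁻¹ * (δ / ((x - t) ^ 2 + δ ^ 2)) : ℝ) : ℂ) * f x) :=
    hk0.ofReal.mul_const _
  have hkf : Integrable (fun t : ℝ => ((π⁻¹ * (δ / ((x - t) ^ 2 + δ ^ 2)) : ℝ) : ℂ) * f t) := by
    refine (hf.norm.const_mul (π⁻¹ * δ⁻¹)).mono' ?_ (Eventually.of_forall fun t => ?_)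
    · exact (hk0.ofReal.aestronglyMeasurable).mul hf.aestronglyMeasurable
    · have h1 : 0 < (x - t) ^ 2 + δ ^ 2 := by positivity
      rw [norm_mul, Complex.norm_real, Real.norm_of_nonneg (by positivity)]
      have h2 : δ / ((x - t) ^ 2 + δ ^ 2) ≤ δ⁻¹ := by
        rw [div_le_iff₀ h1, inv_mul_eq_div, le_div_iff₀ hδ]
        nlinarith [sq_nonneg (x - t)]
      gcongr
  have h2 : PP f δ x - f x = ∫ t : ℝ, ((π⁻¹ * (δ / ((x - t) ^ 2 + δ ^ 2)) : ℝ) : ℂ) * (f t - f x) := by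
    have h3 : f x = ∫ t : ℝ, ((π⁻¹ * (δ / ((x - t) ^ 2 + δ ^ 2)) : ℝ) : ℂ) * f x := by
      rw [integral_mul_const, integral_complex_ofReal, hk1]
      simp
    calc PP f δ x - f x = PP f δ x -
          ∫ t : ℝ, ((π⁻¹ * (δ / ((x - t) ^ 2 + δ ^ 2)) : ℝ) : ℂ) * f x := by rw [← h3]
      _ = _ := by
        unfold PP
        rw [← integral_sub hkf hkC]
        congr 1
        funext t
        ring
  rw [h2]
  refine (norm_integral_le_integral_norm _).trans (le_of_eq ?_)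
  rw [← integral_const_mul]
  congr 1
  funext t
  rw [norm_mul, Complex.norm_real, Real.norm_of_nonneg (by positivity)]
  ring

/-- the auxiliary bounded function -/
noncomputable def GG (f : ℝ → ℝ) (z : ℂ) : ℂ := 1 / ((1 + cau f z) * (z + Complex.I) ^ 2)

lemma cau_re_nonneg (f : ℝ → ℝ) (hf : Integrable f) (h0 : ∀ t, 0 ≤ f t) (z : ℂ) (hz : 0 < z.im) :
    0 ≤ (cau f z).re := by
  have h1 := (cau_eq f hf z.im z.re hz).1
  rw [Complex.re_add_im] at h1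
  unfold PP at h1
  have h2 : (fun t : ℝ => ((π⁻¹ * (z.im / ((z.re - t) ^ 2 + z.im ^ 2)) : ℝ) : ℂ) * ((f t : ℝ) : ℂ)) =
      fun t : ℝ => ((π⁻¹ * (z.im / ((z.re - t) ^ 2 + z.im ^ 2)) * f t : ℝ) : ℂ) := by
    funext t
    push_cast
    ring
  rw [h2, integral_complex_ofReal] at h1
  rw [← Complex.ofReal_injective h1]
  apply integral_nonneg
  intro t
  have := h0 t
  positivity

lemma one_le_norm (f : ℝ → ℝ) (hf : Integrable f) (h0 : ∀ t, 0 ≤ f t) (z : ℂ) (hz : 0 < z.im) :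
    1 ≤ ‖1 + cau f z‖ := by
  have h1 := cau_re_nonneg f hf h0 z hz
  have h2 : (1 + cau f z).re ≤ ‖1 + cau f z‖ := Complex.re_le_norm _
  simp only [Complex.add_re, Complex.one_re] at h2
  linarith

lemma norm_I (z : ℂ) (hz : 0 < z.im) : 1 + ‖z‖ ^ 2 ≤ ‖(z + Complex.I) ^ 2‖ := by
  rw [norm_pow, ← Complex.normSq_eq_norm_sq, ← Complex.normSq_eq_norm_sq, Complex.normSq_apply,
    Complex.normSq_apply]
  simp
  nlinarith

lemma GG_bd (f : ℝ → ℝ) (hf : Integrable f) (h0 : ∀ t, 0 ≤ f t) (z : ℂ) (hz : 0 < z.im) :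
    ‖GG f z‖ ≤ 1 / (1 + ‖z‖ ^ 2) := by
  have h1 := one_le_norm f hf h0 z hz
  have h2 := norm_I z hz
  unfold GG
  rw [norm_div, norm_one, norm_mul]
  have h3 : 0 < 1 + ‖z‖ ^ 2 := by positivity
  apply one_div_le_one_div_of_le h3
  nlinarith

lemma GG_diff (f : ℝ → ℝ) (hf : Integrable f) (h0 : ∀ t, 0 ≤ f t) :
    DifferentiableOn ℂ (GG f) {z : ℂ | 0 < z.im} := by
  unfold GG
  have h1 := cau_diff f hf
  refine (differentiableOn_const _).div ((h1.const_add 1).mul (by fun_prop)) ?_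
  intro z hz
  have h2 := one_le_norm f hf h0 z hz
  have h3 := norm_I z hz
  apply mul_ne_zero
  · intro h
    rw [h, norm_zero] at h2
    linarith
  · intro h
    rw [h, norm_zero] at h3
    have : 0 < 1 + ‖z‖ ^ 2 := by positivity
    linarith

/-- radial limits of `GG f` exist almost everywhere -/
lemma GG_lim (f : ℝ → ℝ) (hf : Integrable f) (h0 : ∀ t, 0 ≤ f t) :
    ∀ᵐ x : ℝ, ∃ w : ℂ, Tendsto (fun δ : ℝ => GG f (x + δ * Complex.I)) (𝓝[>] (0 : ℝ)) (𝓝 w) := by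
  obtain ⟨φ, hφ, hφr⟩ := fatou_re (GG f) (GG_diff f hf h0) (GG_bd f hf h0)
  obtain ⟨ψ, hψ, hψr⟩ := fatou_re (fun z => -Complex.I * GG f z)
    ((GG_diff f hf h0).const_mul _) (fun z hz => by
      rw [norm_mul, norm_neg, Complex.norm_I, one_mul]
      exact GG_bd f hf h0 z hz)
  filter_upwards [PP_tendsto _ hφ.ofReal, PP_tendsto _ hψ.ofReal] with x h1 h2
  refine ⟨(φ x : ℂ) + (ψ x : ℂ) * Complex.I, ?_⟩
  have h3 := h1.add (h2.mul_const Complex.I)
  refine h3.congr' ?_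
  filter_upwards [self_mem_nhdsWithin] with δ hδ
  have e1 := hφr x δ hδ
  have e2 := hψr x δ hδ
  have e1' : PP (fun t => ((φ t : ℝ) : ℂ)) δ x = (((GG f (x + δ * Complex.I)).re : ℝ) : ℂ) := e1
  have e2' : PP (fun t => ((ψ t : ℝ) : ℂ)) δ x = (((GG f (x + δ * Complex.I)).im : ℝ) : ℂ) := by
    rw [e2]
    congr 1
    simp
  show PP (fun t => ((φ t : ℝ) : ℂ)) δ x + PP (fun t => ((ψ t : ℝ) : ℂ)) δ x * Complex.I = _
  rw [e1', e2', Complex.re_add_im]

end Pool.Agent.U7.HW
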